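import Pool.Agent.K7.H67.EN.Freq

/-!
# Additive energies of smooth sequences (helper67)
-/

set_option autoImplicit false

namespace Pool.Agent.K7.H67.EN

open Finset
open Pool.Agent.H469R2.NK Pool.Agent.K7.H67.VDC

lemma e_sum {ι : Type} (s : Finset ι) (f : ι → ℝ) : e (∑ i ∈ s, f i) = ∏ i ∈ s, e (f i) := by
  classical
  induction s using Finset.induction_on with
  | empty => simp [e_zero]
  | insert a s ha ih => rw [sum_insert ha, prod_insert ha, e_add, ih]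

/-- pairs of `r`-tuples -/
def Prs (r L : ℕ) : Finset ((Fin r → ℕ) × (Fin r → ℕ)) :=
  (Fintype.piFinset fun _ : Fin r => Icc 1 L) ×ˢ (Fintype.piFinset fun _ : Fin r => Icc 1 L)

/-- the difference of the sums -/
noncomputable def YY (r : ℕ) (y : ℕ → ℝ) (q : (Fin r → ℕ) × (Fin r → ℕ)) : ℝ := ∑ i, y (q.1 i) - ∑ i, y (q.2 i)

/-- the exponential sum -/
noncomputable def TT (L : ℕ) (y : ℕ → ℝ) (α : ℝ) : ℂ := ∑ l ∈ Icc 1 L, e (α * y l)

lemma TT_neg (L : ℕ) (y : ℕ → ℝ) (α : ℝ) : ‖TT L y (-α)‖ = ‖TT L y α‖ := by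
  have : TT L y (-α) = (starRingEnd ℂ) (TT L y α) := by
    unfold TT
    rw [map_sum]
    refine sum_congr rfl fun n _ => ?_
    rw [conj_e]
    congr 1
    ring
  rw [this, Complex.norm_conj]

lemma sum_e (y : ℕ → ℝ) (r L : ℕ) (α : ℝ) : ∑ q ∈ Prs r L, e (α * YY r y q) = ((‖TT L y α‖ ^ (2 * r) : ℝ) : ℂ) := by
  have h1 : ∀ q : (Fin r → ℕ) × (Fin r → ℕ), e (α * YY r y q) =
      (∏ i, e (α * y (q.1 i))) * (∏ i, (starRingEnd ℂ) (e (α * y (q.2 i)))) := by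
    intro q
    have e1 : α * YY r y q = (∑ i, α * y (q.1 i)) + ∑ i, -(α * y (q.2 i)) := by
      unfold YY
      rw [sum_neg_distrib, ← mul_sum, ← mul_sum]
      ring
    rw [e1, e_add, e_sum, e_sum]
    congr 1
    exact prod_congr rfl fun i _ => (conj_e _).symm
  rw [sum_congr rfl fun q _ => h1 q]
  unfold Prs
  rw [sum_product]
  simp only [← mul_sum]
  rw [← sum_mul]
  have h2 := prod_univ_sum (fun _ : Fin r => Icc 1 L) (fun (_ : Fin r) l => e (α * y l))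
  have h3 := prod_univ_sum (fun _ : Fin r => Icc 1 L) (fun (_ : Fin r) l => (starRingEnd ℂ) (e (α * y l)))
  rw [← h2, ← h3]
  simp only [prod_const, card_univ, Fintype.card_fin]
  rw [← map_sum, ← mul_pow]
  unfold TT
  rw [Complex.mul_conj, Complex.normSq_eq_norm_sq]
  push_cast
  rw [← pow_mul]

lemma kernel_sum (y : ℕ → ℝ) (r L J : ℕ) (θ : ℝ) :
    ∑ q ∈ Prs r L, ‖∑ i ∈ range J, e ((i : ℝ) * θ * YY r y q)‖ ^ 2 =
      ∑ i ∈ range J, ∑ j ∈ range J, ‖TT L y (((i : ℝ) - j) * θ)‖ ^ (2 * r) := by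
  apply Complex.ofReal_injective
  push_cast
  have h1 : ∀ q ∈ Prs r L, ((‖∑ i ∈ range J, e ((i : ℝ) * θ * YY r y q)‖ : ℂ)) ^ 2 =
      ∑ i ∈ range J, ∑ j ∈ range J, e ((((i : ℝ) - j) * θ) * YY r y q) := by
    intro q _
    rw [← Complex.mul_conj', map_sum, sum_mul_sum]
    refine sum_congr rfl fun i _ => sum_congr rfl fun j _ => ?_
    rw [conj_e, ← e_add]
    congr 1
    ring
  rw [sum_congr rfl h1, sum_comm]
  refine sum_congr rfl fun i _ => ?_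
  rw [sum_comm]
  refine sum_congr rfl fun j _ => ?_
  rw [sum_e]
  push_cast
  rfl

lemma re_e (x : ℝ) : (e x).re = Real.cos (2 * Real.pi * x) := by
  unfold e
  exact Complex.exp_ofReal_mul_I_re _

lemma ker_ge (J : ℕ) (θ Y : ℝ) (h : (J : ℝ) * |θ * Y| ≤ 1 / 8) : (J : ℝ) / 2 ≤ ‖∑ i ∈ range J, e ((i : ℝ) * θ * Y)‖ := by
  refine le_trans ?_ (Complex.re_le_norm _)
  rw [Complex.re_sum]
  have h1 : ∀ i ∈ range J, (1 : ℝ) / 2 ≤ (e ((i : ℝ) * θ * Y)).re := by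
    intro i hi
    rw [re_e, ← Real.cos_abs, ← Real.cos_pi_div_three]
    have hi' : (i : ℝ) ≤ J := by exact_mod_cast (mem_range.1 hi).le
    apply Real.cos_le_cos_of_nonneg_of_le_pi (abs_nonneg _)
    · have := Real.pi_pos
      linarith
    · rw [abs_mul, abs_of_pos (by positivity : (0 : ℝ) < 2 * Real.pi)]
      have h2 : |(i : ℝ) * θ * Y| ≤ 1 / 8 := by
        rw [mul_assoc, abs_mul, Nat.abs_cast]
        exact (mul_le_mul_of_nonneg_right hi' (abs_nonneg _)).trans h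
      have := Real.pi_pos
      calc 2 * Real.pi * |(i : ℝ) * θ * Y| ≤ 2 * Real.pi * (1 / 8) := by gcongr
        _ ≤ Real.pi / 3 := by linarith
  calc (J : ℝ) / 2 = ∑ _i ∈ range J, (1 : ℝ) / 2 := by rw [sum_const, card_range, nsmul_eq_mul]; ring
    _ ≤ _ := sum_le_sum h1

lemma row_le (y : ℕ → ℝ) (r L J : ℕ) (θ : ℝ) (i : ℕ) (hi : i ∈ range J) :
    ∑ j ∈ range J, ‖TT L y (((i : ℝ) - j) * θ)‖ ^ (2 * r) ≤ 2 * ∑ d ∈ range J, ‖TT L y ((d : ℝ) * θ)‖ ^ (2 * r) := by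
  rw [mem_range] at hi
  obtain ⟨g, hg⟩ : ∃ g : ℕ → ℝ, g = fun d : ℕ => ‖TT L y ((d : ℝ) * θ)‖ ^ (2 * r) := ⟨_, rfl⟩
  have hg0 : ∀ d, 0 ≤ g d := by intro d; rw [hg]; positivity
  have e1 : ∑ d ∈ range J, ‖TT L y ((d : ℝ) * θ)‖ ^ (2 * r) = ∑ d ∈ range J, g d := by rw [hg]
  rw [e1, two_mul (∑ d ∈ range J, g d), ← sum_filter_add_sum_filter_not (range J) (fun j => j ≤ i)]
  apply add_le_add
  · have h1 : ∀ j ∈ (range J).filter (fun j => j ≤ i), ‖TT L y (((i : ℝ) - j) * θ)‖ ^ (2 * r) = g (i - j) := by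
      intro j hj
      rw [hg, mem_filter] at *
      simp only
      rw [Nat.cast_sub hj.2]
    rw [sum_congr rfl h1, ← sum_image (f := g) (g := fun j => i - j) (by
      intro a ha b hb hab
      rw [mem_coe, mem_filter] at ha hb
      simp only at hab
      omega)]
    apply sum_le_sum_of_subset_of_nonneg
    · intro d hd
      rw [mem_image] at hd
      obtain ⟨j, _, rfl⟩ := hd
      rw [mem_range]; omega
    · exact fun d _ _ => hg0 d
  · have h1 : ∀ j ∈ (range J).filter (fun j => ¬ j ≤ i), ‖TT L y (((i : ℝ) - j) * θ)‖ ^ (2 * r) = g (j - i) := by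
      intro j hj
      rw [hg, mem_filter] at *
      simp only
      rw [Nat.cast_sub (by omega), ← TT_neg]
      congr 3
      ring
    rw [sum_congr rfl h1, ← sum_image (f := g) (g := fun j => j - i) (by
      intro a ha b hb hab
      rw [mem_coe, mem_filter] at ha hb
      simp only at hab
      omega)]
    apply sum_le_sum_of_subset_of_nonneg
    · intro d hd
      rw [mem_image] at hd
      obtain ⟨j, hj, rfl⟩ := hd
      rw [mem_filter, mem_range] at hj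
      rw [mem_range]; omega
    · exact fun d _ _ => hg0 d

open Classical in
/-- **The energy inequality.** -/
lemma energy_ineq (y : ℕ → ℝ) (r L J : ℕ) (θ : ℝ) (hθ : 0 ≤ θ) (hJ : 1 ≤ J) (h : (J : ℝ) * θ * r ≤ 1 / 8) :
    (((Prs r L).filter (fun q => |YY r y q| ≤ r)).card : ℝ) * J ≤ 8 * ∑ d ∈ range J, ‖TT L y ((d : ℝ) * θ)‖ ^ (2 * r) := by
  have hJ0 : (0 : ℝ) < J := by exact_mod_cast hJ
  obtain ⟨Sg, hSg⟩ : ∃ Sg : ℝ, Sg = ∑ d ∈ range J, ‖TT L y ((d : ℝ) * θ)‖ ^ (2 * r) := ⟨_, rfl⟩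
  have h1 : (((Prs r L).filter (fun q => |YY r y q| ≤ r)).card : ℝ) * ((J : ℝ) / 2) ^ 2 ≤ J * (2 * Sg) := by
    calc (((Prs r L).filter (fun q => |YY r y q| ≤ r)).card : ℝ) * ((J : ℝ) / 2) ^ 2
        = ∑ q ∈ (Prs r L).filter (fun q => |YY r y q| ≤ r), ((J : ℝ) / 2) ^ 2 := by rw [sum_const, nsmul_eq_mul]
      _ ≤ ∑ q ∈ (Prs r L).filter (fun q => |YY r y q| ≤ r), ‖∑ i ∈ range J, e ((i : ℝ) * θ * YY r y q)‖ ^ 2 := by
          apply sum_le_sum
          intro q hq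
          rw [mem_filter] at hq
          have := ker_ge J θ (YY r y q) (by
            rw [abs_mul, abs_of_nonneg hθ]
            calc (J : ℝ) * (θ * |YY r y q|) ≤ J * (θ * r) := by
                  have := hq.2
                  gcongr
              _ ≤ 1 / 8 := by linarith)
          gcongr
      _ ≤ ∑ q ∈ Prs r L, ‖∑ i ∈ range J, e ((i : ℝ) * θ * YY r y q)‖ ^ 2 :=
          sum_le_sum_of_subset_of_nonneg (filter_subset _ _) fun _ _ _ => by positivity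
      _ = ∑ i ∈ range J, ∑ j ∈ range J, ‖TT L y (((i : ℝ) - j) * θ)‖ ^ (2 * r) := kernel_sum y r L J θ
      _ ≤ ∑ _i ∈ range J, (2 * Sg) := sum_le_sum fun i hi => by rw [hSg]; exact row_le y r L J θ i hi
      _ = J * (2 * Sg) := by rw [sum_const, card_range, nsmul_eq_mul]
  rw [← hSg]
  nlinarith

lemma sum_sq (J : ℕ) : ∑ d ∈ range J, 1 / ((d : ℝ) + 1) ^ 2 ≤ 2 := by
  have h : ∀ J : ℕ, ∑ d ∈ range (J + 1), 1 / ((d : ℝ) + 1) ^ 2 ≤ 2 - 1 / ((J : ℝ) + 1) := by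
    intro J
    induction J with
    | zero => norm_num
    | succ J ih =>
      rw [sum_range_succ]
      push_cast
      have e1 : 1 / ((J : ℝ) + 1 + 1) ^ 2 ≤ 1 / ((J : ℝ) + 1) - 1 / ((J : ℝ) + 1 + 1) := by
        rw [div_sub_div _ _ (by positivity) (by positivity), div_le_div_iff₀ (by positivity) (by positivity)]
        nlinarith [(Nat.cast_nonneg J : (0 : ℝ) ≤ J)]
      linarith
  rcases Nat.eq_zero_or_pos J with rfl | hJ
  · simp
  · obtain ⟨J, rfl⟩ : ∃ J', J = J' + 1 := ⟨J - 1, by omega⟩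
    have := h J
    have h2 : (0 : ℝ) < 1 / ((J : ℝ) + 1) := by positivity
    linarith

open Classical in
/-- **Additive energies of smooth sequences are nearly minimal.** -/
theorem en_smooth (K : ℕ) (C τ : ℝ) (hC : 1 ≤ C) (hτ : 0 < τ) : ∃ r : ℕ, 1 ≤ r ∧ ∃ C' : ℝ, 0 < C' ∧ ∃ X₀ : ℕ, ∀ X : ℕ, X₀ ≤ X →
    ∀ (A : ℝ) (F : ℕ → ℝ → ℝ), Smooth K C τ X A F → 8 * (r : ℝ) ≤ A → ∀ L : ℕ, L ≤ X →
      (((Prs r L).filter (fun q => |YY r (fun l => F 0 ((X + l : ℕ) : ℝ)) q| ≤ r)).card : ℝ) * A ≤ C' * (X : ℝ) ^ (2 * r) := by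
  obtain ⟨δ, hδ, X₀, h⟩ := all_freq K C τ hC hτ
  obtain ⟨r, hr⟩ : ∃ r : ℕ, r = ⌈((K : ℝ) + 1) / (2 * δ)⌉₊ + 1 := ⟨_, rfl⟩
  have hr1 : 1 ≤ r := by omega
  have hrδ : (K : ℝ) + 1 ≤ 2 * r * δ := by
    have h1 : ((K : ℝ) + 1) / (2 * δ) ≤ r := by
      rw [hr]
      push_cast
      have := Nat.le_ceil (((K : ℝ) + 1) / (2 * δ))
      linarith
    rw [div_le_iff₀ (by positivity)] at h1
    linarith
  have hr0 : (0 : ℝ) < r := by exact_mod_cast hr1
  refine ⟨r, hr1, 128 * r * (4 * (4 * C) ^ (2 * r)), by positivity, max X₀ 1, fun X hX A F hF hA L hL => ?_⟩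
  have hX1 : 1 ≤ X := (le_max_right _ _).trans hX
  have hXr : (1 : ℝ) ≤ X := by exact_mod_cast hX1
  have hXp : (0 : ℝ) < X := by linarith
  have hr1' : (1 : ℝ) ≤ r := by exact_mod_cast hr1
  have hA0 : 0 < A := by linarith
  have hA1 : 1 ≤ A := by linarith
  obtain ⟨y, hy⟩ : ∃ y : ℕ → ℝ, y = fun l => F 0 ((X + l : ℕ) : ℝ) := ⟨_, rfl⟩
  rw [← hy]
  obtain ⟨J, hJ⟩ : ∃ J, J = ⌊A / (8 * r)⌋₊ := ⟨_, rfl⟩
  have hJle : (J : ℝ) ≤ A / (8 * r) := by rw [hJ]; exact Nat.floor_le (by positivity)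
  have hJ1 : 1 ≤ J := by
    rw [hJ]
    apply Nat.le_floor
    rw [Nat.cast_one, le_div_iff₀ (by positivity)]
    linarith
  have hJ1' : (1 : ℝ) ≤ J := by exact_mod_cast hJ1
  have hJge : A / (16 * r) ≤ J := by
    have h1 : A / (8 * r) < J + 1 := by rw [hJ]; exact Nat.lt_floor_add_one _
    have h2 : A / (16 * r) = A / (8 * r) / 2 := by field_simp; norm_num
    rw [h2]
    linarith
  have hJA : (J : ℝ) ≤ A := by
    refine hJle.trans ?_
    rw [div_le_iff₀ (by positivity)]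
    nlinarith
  have hin := energy_ineq y r L J (1 / A) (by positivity) hJ1 (by
    rw [le_div_iff₀ (by positivity)] at hJle
    calc (J : ℝ) * (1 / A) * r = (J * (8 * r)) / (8 * A) := by field_simp
      _ ≤ A / (8 * A) := by gcongr
      _ = 1 / 8 := by field_simp)
  -- the sums
  have hT0 : ‖TT L y (((0 : ℕ) : ℝ) * (1 / A))‖ ≤ X := by
    unfold TT
    refine (norm_sum_le _ _).trans ?_
    simp only [norm_e, sum_const, Nat.card_Icc, nsmul_eq_mul, mul_one]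
    exact_mod_cast (by omega : L + 1 - 1 ≤ X)
  have hTd : ∀ d : ℕ, d + 1 < J → ‖TT L y (((d + 1 : ℕ) : ℝ) * (1 / A))‖ ^ (2 * r) ≤
      (4 * C * X) ^ (2 * r) * (1 / ((d : ℝ) + 1) ^ 2 + 1 / A) := by
    intro d hd
    have hd1 : ((d + 1 : ℕ) : ℝ) ≤ A := by
      have : ((d + 1 : ℕ) : ℝ) ≤ J := by exact_mod_cast hd.le
      linarith
    have hdp : (1 : ℝ) ≤ ((d + 1 : ℕ) : ℝ) := by exact_mod_cast (by omega : 1 ≤ d + 1)
    have h1 := h X ((le_max_left _ _).trans hX) A F hF ((d + 1 : ℕ) : ℝ) hdp hd1 (X + 1) L (by omega) hL (by omega)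
    have h2 : TT L y (((d + 1 : ℕ) : ℝ) * (1 / A)) = ∑ n ∈ range L, e (((d + 1 : ℕ) : ℝ) / A * F 0 ((X + 1 + n : ℕ) : ℝ)) := by
      unfold TT
      rw [hy, show Icc 1 L = Ico 1 (L + 1) by ext a; simp [Nat.lt_succ_iff], sum_Ico_eq_sum_range]
      refine sum_congr rfl fun n _ => ?_
      show e (((d + 1 : ℕ) : ℝ) * (1 / A) * F 0 ((X + (1 + n) : ℕ) : ℝ)) = _
      rw [show X + (1 + n) = X + 1 + n by ring, mul_one_div]
    rw [h2]
    have hD0 : (0 : ℝ) ≤ 1 / ((d + 1 : ℕ) : ℝ) := by positivity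
    have hX0 : (0 : ℝ) ≤ (X : ℝ) ^ (-δ) := by positivity
    have hpow := add_pow_le hD0 hX0 (2 * r)
    have e1 : (1 / ((d + 1 : ℕ) : ℝ)) ^ (2 * r) ≤ 1 / ((d : ℝ) + 1) ^ 2 := by
      calc (1 / ((d + 1 : ℕ) : ℝ)) ^ (2 * r) ≤ (1 / ((d + 1 : ℕ) : ℝ)) ^ 2 :=
            pow_le_pow_of_le_one hD0 (by rw [div_le_one (by linarith)]; exact hdp) (by omega)
        _ = 1 / ((d : ℝ) + 1) ^ 2 := by push_cast; rw [div_pow, one_pow]
    have e2 : ((X : ℝ) ^ (-δ)) ^ (2 * r) ≤ 1 / A := by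
      rw [← Real.rpow_natCast, ← Real.rpow_mul hXp.le]
      have h3 : (X : ℝ) ^ (-δ * ((2 * r : ℕ) : ℝ)) ≤ (X : ℝ) ^ (-((K : ℝ) + 1)) := by
        apply Real.rpow_le_rpow_of_exponent_le hXr
        push_cast
        linarith
      refine h3.trans ?_
      rw [Real.rpow_neg hXp.le, ← one_div]
      apply one_div_le_one_div_of_le hA0
      refine hF.le.trans (Real.rpow_le_rpow_of_exponent_le hXr (by linarith))
    calc ‖∑ n ∈ range L, e (((d + 1 : ℕ) : ℝ) / A * F 0 ((X + 1 + n : ℕ) : ℝ))‖ ^ (2 * r)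
        ≤ (2 * C * X * (1 / ((d + 1 : ℕ) : ℝ) + (X : ℝ) ^ (-δ))) ^ (2 * r) := by gcongr
      _ = (2 * C * X) ^ (2 * r) * (1 / ((d + 1 : ℕ) : ℝ) + (X : ℝ) ^ (-δ)) ^ (2 * r) := by rw [mul_pow]
      _ ≤ (2 * C * X) ^ (2 * r) * (2 ^ (2 * r - 1) * ((1 / ((d + 1 : ℕ) : ℝ)) ^ (2 * r) + ((X : ℝ) ^ (-δ)) ^ (2 * r))) := by gcongr
      _ ≤ (2 * C * X) ^ (2 * r) * (2 ^ (2 * r) * (1 / ((d : ℝ) + 1) ^ 2 + 1 / A)) := by
          gcongr
          · norm_num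
          · omega
      _ = (4 * C * X) ^ (2 * r) * (1 / ((d : ℝ) + 1) ^ 2 + 1 / A) := by
          rw [show 4 * C * X = (2 * C * X) * 2 by ring, mul_pow (2 * C * (X : ℝ)) 2]
          ring
  have hsum : ∑ d ∈ range J, ‖TT L y ((d : ℝ) * (1 / A))‖ ^ (2 * r) ≤ 4 * (4 * C * X) ^ (2 * r) := by
    obtain ⟨J', rfl⟩ : ∃ J', J = J' + 1 := ⟨J - 1, by omega⟩
    rw [sum_range_succ']
    have h1 : ∑ d ∈ range J', ‖TT L y (((d + 1 : ℕ) : ℝ) * (1 / A))‖ ^ (2 * r) ≤ (4 * C * X) ^ (2 * r) * 3 := by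
      calc ∑ d ∈ range J', ‖TT L y (((d + 1 : ℕ) : ℝ) * (1 / A))‖ ^ (2 * r)
          ≤ ∑ d ∈ range J', (4 * C * X) ^ (2 * r) * (1 / ((d : ℝ) + 1) ^ 2 + 1 / A) :=
            sum_le_sum fun d hd => hTd d (by rw [mem_range] at hd; omega)
        _ = (4 * C * X) ^ (2 * r) * (∑ d ∈ range J', 1 / ((d : ℝ) + 1) ^ 2 + J' * (1 / A)) := by
            rw [← mul_sum, sum_add_distrib, sum_const, card_range, nsmul_eq_mul]
        _ ≤ (4 * C * X) ^ (2 * r) * (2 + 1) := by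
            have g1 := sum_sq J'
            have g2 : (J' : ℝ) * (1 / A) ≤ 1 := by
              rw [mul_one_div, div_le_one hA0]
              push_cast at hJA
              linarith
            gcongr
        _ = _ := by norm_num
    have h2 : ‖TT L y (((0 : ℕ) : ℝ) * (1 / A))‖ ^ (2 * r) ≤ (4 * C * X) ^ (2 * r) := by
      apply pow_le_pow_left₀ (norm_nonneg _)
      refine hT0.trans ?_
      nlinarith
    linarith
  obtain ⟨E, hE⟩ : ∃ E : ℝ, E = (((Prs r L).filter (fun q => |YY r y q| ≤ r)).card : ℝ) := ⟨_, rfl⟩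
  rw [← hE] at hin ⊢
  have hE0 : 0 ≤ E := by rw [hE]; positivity
  have h3 : E * A ≤ 16 * r * (E * J) := by
    rw [div_le_iff₀ (by positivity)] at hJge
    calc E * A ≤ E * (J * (16 * r)) := by gcongr
      _ = _ := by ring
  have h4 : E * J ≤ 8 * (4 * (4 * C * X) ^ (2 * r)) := hin.trans (mul_le_mul_of_nonneg_left hsum (by norm_num))
  calc E * A ≤ 16 * r * (E * J) := h3
    _ ≤ 16 * r * (8 * (4 * (4 * C * X) ^ (2 * r))) := mul_le_mul_of_nonneg_left h4 (by positivity)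
    _ = 128 * r * (4 * (4 * C) ^ (2 * r)) * (X : ℝ) ^ (2 * r) := by
        rw [mul_pow (4 * C) (X : ℝ)]
        ring

end Pool.Agent.K7.H67.EN
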