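import Pool.Agent.K7.H67.EN.En
import Pool.Agent.K7.H67.VDC.Smooth

/-!
# Additive energies of the integer parts of smooth functions (helper67)
-/

set_option autoImplicit false

namespace Pool.Agent.K7.H67.EN

open Finset
open Pool.Agent.H469R2.NK Pool.Agent.K7.H67.VDC

lemma floor_sub (r : ℕ) (y : ℕ → ℝ) (q : (Fin r → ℕ) × (Fin r → ℕ)) (h : ∑ i, ⌊y (q.1 i)⌋ = ∑ i, ⌊y (q.2 i)⌋) :
    |YY r y q| ≤ r := by
  have h1 : ∀ v : Fin r → ℕ, ∑ i, y (v i) = ((∑ i, ⌊y (v i)⌋ : ℤ) : ℝ) + ∑ i, Int.fract (y (v i)) := by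
    intro v
    push_cast
    rw [← sum_add_distrib]
    exact sum_congr rfl fun i _ => (Int.floor_add_fract _).symm
  have h2 : ∀ v : Fin r → ℕ, 0 ≤ ∑ i, Int.fract (y (v i)) := fun v => sum_nonneg fun i _ => Int.fract_nonneg _
  have h3 : ∀ v : Fin r → ℕ, ∑ i, Int.fract (y (v i)) ≤ r := by
    intro v
    calc ∑ i, Int.fract (y (v i)) ≤ ∑ _i : Fin r, (1 : ℝ) := sum_le_sum fun i _ => (Int.fract_lt_one _).le
      _ = r := by simp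
  have e1 : YY r y q = ∑ i, Int.fract (y (q.1 i)) - ∑ i, Int.fract (y (q.2 i)) := by
    unfold YY
    rw [h1 q.1, h1 q.2, h]
    ring
  rw [e1, abs_le]
  have := h2 q.1
  have := h2 q.2
  have := h3 q.1
  have := h3 q.2
  constructor <;> linarith

/-- the additive energy of the integer parts -/
theorem en_floor (K : ℕ) (C τ : ℝ) (hC : 1 ≤ C) (hτ : 0 < τ) : ∃ r : ℕ, 1 ≤ r ∧ ∃ C' : ℝ, 0 < C' ∧ ∃ X₀ : ℕ, ∀ X : ℕ, X₀ ≤ X →
    ∀ (A : ℝ) (F : ℕ → ℝ → ℝ), Smooth K C τ X A F → 8 * (r : ℝ) ≤ A → ∀ L : ℕ, L ≤ X →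
      ((((Fintype.piFinset fun _ : Fin r => Icc 1 L) ×ˢ (Fintype.piFinset fun _ : Fin r => Icc 1 L)).filter
        (fun q : (Fin r → ℕ) × (Fin r → ℕ) => ∑ i, ⌊F 0 ((X + q.1 i : ℕ) : ℝ)⌋ = ∑ i, ⌊F 0 ((X + q.2 i : ℕ) : ℝ)⌋)).card : ℝ) * A ≤
        C' * (X : ℝ) ^ (2 * r) := by
  classical
  obtain ⟨r, hr, C', hC', X₀, h⟩ := en_smooth K C τ hC hτ
  refine ⟨r, hr, C', hC', X₀, fun X hX A F hF hA L hL => le_trans ?_ (h X hX A F hF hA L hL)⟩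
  have hA0 : 0 ≤ A := le_trans (by positivity) hA
  refine mul_le_mul_of_nonneg_right ?_ hA0
  rw [Nat.cast_le]
  apply card_le_card
  intro q hq
  rw [mem_filter] at hq
  rw [mem_filter]
  refine ⟨hq.1, floor_sub r (fun l => F 0 ((X + l : ℕ) : ℝ)) q hq.2⟩

lemma Smooth.mono {K : ℕ} {C C' τ τ' : ℝ} {N : ℕ} {A : ℝ} {F : ℕ → ℝ → ℝ} (h : Smooth K C τ N A F) (hC : 0 < C) (hCC : C ≤ C')
    (hN : 1 ≤ N) (hA : 0 ≤ A) (hτ : τ' ≤ τ) : Smooth K C' τ' N A F := by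
  have hN1 : (1 : ℝ) ≤ N := by exact_mod_cast hN
  refine ⟨h.deriv, fun j h1 h2 y h3 h4 => ?_, h.sign, h.le.trans (Real.rpow_le_rpow_of_exponent_le hN1 (by linarith))⟩
  obtain ⟨g1, g2⟩ := h.size j h1 h2 y h3 h4
  have hC'0 : 0 < C' := by linarith
  refine ⟨le_trans ?_ g1, g2.trans ?_⟩
  · gcongr
  · gcongr

/-- for `κ ∉ ℕ` the function `α x ^ κ + β` is smooth of every order -/
lemma PS_size (κ : ℝ) (hκ : ∀ n : ℕ, κ ≠ n) (K : ℕ) : ∃ C : ℝ, 1 ≤ C ∧ ∀ N : ℕ, 1 ≤ N → ∀ α β : ℝ, ∀ j : ℕ, 1 ≤ j → j ≤ K →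
    ∀ y : ℝ, N ≤ y → y ≤ 3 * N →
      |α| * (N : ℝ) ^ κ / (C * (N : ℝ) ^ j) ≤ |PS α κ β j y| ∧ |PS α κ β j y| ≤ C * (|α| * (N : ℝ) ^ κ) / (N : ℝ) ^ j := by
  have hprod : ∀ j : ℕ, ∏ i ∈ range j, (κ - i) ≠ 0 := fun j => prod_ne_zero_iff.2 fun i _ => sub_ne_zero.2 (hκ i)
  obtain ⟨M, hM⟩ := Finset.exists_le ((range (K + 1)).image fun j : ℕ => |∏ i ∈ range j, (κ - i)| * (3 : ℝ) ^ |κ - j|)
  obtain ⟨M', hM'⟩ := Finset.exists_le ((range (K + 1)).image fun j : ℕ => |∏ i ∈ range j, (κ - i)|⁻¹ * (3 : ℝ) ^ |κ - j|)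
  refine ⟨max 1 (max M M'), le_max_left _ _, fun N hN α β j hj1 hjK y hy1 hy2 => ?_⟩
  obtain ⟨C, hC⟩ : ∃ C, C = max 1 (max M M') := ⟨_, rfl⟩
  rw [← hC]
  have hC1 : 1 ≤ C := by rw [hC]; exact le_max_left _ _
  have hC0 : 0 < C := by linarith
  have hNr : (1 : ℝ) ≤ N := by exact_mod_cast hN
  have hN0 : (0 : ℝ) < N := by linarith
  have hy0 : 0 < y := by linarith
  have hMj : |∏ i ∈ range j, (κ - i)| * (3 : ℝ) ^ |κ - j| ≤ C := by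
    refine (hM _ (mem_image_of_mem _ (mem_range.2 (by omega)))).trans ?_
    rw [hC]
    exact (le_max_left _ _).trans (le_max_right _ _)
  have hMj' : |∏ i ∈ range j, (κ - i)|⁻¹ * (3 : ℝ) ^ |κ - j| ≤ C := by
    refine (hM' _ (mem_image_of_mem _ (mem_range.2 (by omega)))).trans ?_
    rw [hC]
    exact (le_max_right _ _).trans (le_max_right _ _)
  obtain ⟨P, hP⟩ : ∃ P, P = |∏ i ∈ range j, (κ - i)| := ⟨_, rfl⟩
  rw [← hP] at hMj hMj'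
  have hP0 : 0 < P := by rw [hP]; exact abs_pos.2 (hprod j)
  obtain ⟨T, hT⟩ : ∃ T : ℝ, T = (3 : ℝ) ^ |κ - j| := ⟨_, rfl⟩
  rw [← hT] at hMj hMj'
  have hT0 : 0 < T := by rw [hT]; positivity
  have e1 : |PS α κ β j y| = |α| * P * y ^ (κ - j) := by
    unfold PS
    rw [if_neg (by omega), add_zero, abs_mul, abs_mul, ← hP, abs_of_pos (Real.rpow_pos_of_pos hy0 _)]
  -- comparison of y ^ s and N ^ s
  have hup : y ^ (κ - j) ≤ T * (N : ℝ) ^ (κ - j) := by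
    obtain ⟨t, ht⟩ : ∃ t, t = y / N := ⟨_, rfl⟩
    have ht1 : 1 ≤ t := by rw [ht, le_div_iff₀ hN0]; linarith
    have ht3 : t ≤ 3 := by rw [ht, div_le_iff₀ hN0]; linarith
    have hyt : y = t * N := by rw [ht]; field_simp
    rw [hyt, Real.mul_rpow (by linarith) hN0.le]
    apply mul_le_mul_of_nonneg_right _ (by positivity)
    calc t ^ (κ - j) ≤ t ^ |κ - j| := Real.rpow_le_rpow_of_exponent_le ht1 (le_abs_self _)
      _ ≤ 3 ^ |κ - j| := Real.rpow_le_rpow (by linarith) ht3 (abs_nonneg _)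
      _ = T := hT.symm
  have hlo : (N : ℝ) ^ (κ - j) ≤ T * y ^ (κ - j) := by
    obtain ⟨t, ht⟩ : ∃ t, t = y / N := ⟨_, rfl⟩
    have ht1 : 1 ≤ t := by rw [ht, le_div_iff₀ hN0]; linarith
    have ht3 : t ≤ 3 := by rw [ht, div_le_iff₀ hN0]; linarith
    have hyt : y = t * N := by rw [ht]; field_simp
    have ht0 : 0 < t := by linarith
    rw [hyt, Real.mul_rpow (by linarith) hN0.le]
    have h1 : 1 ≤ T * t ^ (κ - j) := by
      have h2 : t ^ (-|κ - j|) ≤ t ^ (κ - j) := Real.rpow_le_rpow_of_exponent_le ht1 (neg_abs_le _)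
      have h3 : t ^ |κ - j| ≤ T := by rw [hT]; exact Real.rpow_le_rpow (by linarith) ht3 (abs_nonneg _)
      calc 1 = t ^ |κ - j| * t ^ (-|κ - j|) := by rw [← Real.rpow_add ht0]; simp
        _ ≤ T * t ^ (κ - j) := by gcongr
    calc (N : ℝ) ^ (κ - j) = 1 * (N : ℝ) ^ (κ - j) := by ring
      _ ≤ (T * t ^ (κ - j)) * (N : ℝ) ^ (κ - j) := by gcongr
      _ = _ := by ring
  have e2 : (N : ℝ) ^ κ / (N : ℝ) ^ j = (N : ℝ) ^ (κ - j) := by rw [Real.rpow_sub hN0, Real.rpow_natCast]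
  rw [e1]
  constructor
  · have h1 : |α| * (N : ℝ) ^ κ / (C * (N : ℝ) ^ j) = |α| * (N : ℝ) ^ (κ - j) / C := by
      rw [← e2]; field_simp
    rw [h1, div_le_iff₀ hC0]
    have h2 : T ≤ C * P := by
      rw [inv_mul_le_iff₀ hP0] at hMj'
      linarith
    have hy' : 0 < y ^ (κ - j) := Real.rpow_pos_of_pos hy0 _
    calc |α| * (N : ℝ) ^ (κ - j) ≤ |α| * (T * y ^ (κ - j)) := by gcongr
      _ ≤ |α| * ((C * P) * y ^ (κ - j)) := by gcongr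
      _ = _ := by ring
  · have h1 : C * (|α| * (N : ℝ) ^ κ) / (N : ℝ) ^ j = C * |α| * (N : ℝ) ^ (κ - j) := by
      rw [← e2]; field_simp
    rw [h1]
    have hN' : 0 < (N : ℝ) ^ (κ - j) := Real.rpow_pos_of_pos hN0 _
    calc |α| * P * y ^ (κ - j) ≤ |α| * P * (T * (N : ℝ) ^ (κ - j)) := by gcongr
      _ = |α| * (P * T) * (N : ℝ) ^ (κ - j) := by ring
      _ ≤ |α| * C * (N : ℝ) ^ (κ - j) := by gcongr
      _ = _ := by ring

theorem PS_smooth (κ : ℝ) (hκ : ∀ n : ℕ, κ ≠ n) (K : ℕ) : ∃ C : ℝ, 1 ≤ C ∧ ∀ N : ℕ, 1 ≤ N → ∀ α β τ : ℝ,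
    |α| * (N : ℝ) ^ κ ≤ (N : ℝ) ^ ((K : ℝ) + 1 - τ) → Smooth K C τ N (|α| * (N : ℝ) ^ κ) (PS α κ β) := by
  obtain ⟨C, hC, h⟩ := PS_size κ hκ (K + 1)
  refine ⟨C, hC, fun N hN α β τ hle => ⟨fun r _ x hx => PS_deriv α κ β r hx, fun j h1 h2 => h N hN α β j h1 h2, ?_, hle⟩⟩
  have hNr : (1 : ℝ) ≤ N := by exact_mod_cast hN
  have e1 : ∀ y : ℝ, PS α κ β (K + 2) y = (α * ∏ i ∈ range (K + 2), (κ - i)) * y ^ (κ - ((K + 2 : ℕ) : ℝ)) := by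
    intro y
    unfold PS
    rw [if_neg (by omega), add_zero]
  rcases le_total (α * ∏ i ∈ range (K + 2), (κ - i)) 0 with h1 | h1
  · left
    intro y hy _
    rw [e1]
    exact mul_nonpos_of_nonpos_of_nonneg h1 (Real.rpow_nonneg (by linarith) _)
  · right
    intro y hy _
    rw [e1]
    exact mul_nonneg h1 (Real.rpow_nonneg (by linarith) _)

end Pool.Agent.K7.H67.EN
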