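import Pool.Agent.K7.H67.EN.Mono

/-!
# Exponential sums `∑ e(α F(n))` at all frequencies `1 / A ≤ α ≤ 1` (helper67)
-/

set_option autoImplicit false

namespace Pool.Agent.K7.H67.EN

open Finset
open Pool.Agent.H469R2.NK Pool.Agent.K7.H67.VDC

/-- `F 0` is smooth with derivatives `F 1, F 2, ...`, the derivative of order `j` being of the exact order `A / N ^ j` on
`[N, 3 N]` for `1 ≤ j ≤ K + 1`, and the derivative of order `K + 2` of one sign; `A ≤ N ^ (K + 1 - τ)`. -/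
structure Smooth (K : ℕ) (C τ : ℝ) (N : ℕ) (A : ℝ) (F : ℕ → ℝ → ℝ) : Prop where
  deriv : ∀ r < K + 2, ∀ x : ℝ, 0 < x → HasDerivAt (F r) (F (r + 1) x) x
  size : ∀ j : ℕ, 1 ≤ j → j ≤ K + 1 → ∀ y : ℝ, N ≤ y → y ≤ 3 * N → A / (C * (N : ℝ) ^ j) ≤ |F j y| ∧ |F j y| ≤ C * A / (N : ℝ) ^ j
  sign : (∀ y : ℝ, N ≤ y → y ≤ 3 * N → F (K + 2) y ≤ 0) ∨ (∀ y : ℝ, N ≤ y → y ≤ 3 * N → 0 ≤ F (K + 2) y)
  le : A ≤ (N : ℝ) ^ ((K : ℝ) + 1 - τ)

lemma exists_lower (g : ℕ → ℝ) (hg : ∀ n, 0 < g n) (K : ℕ) : ∃ δ : ℝ, 0 < δ ∧ ∀ n < K, δ ≤ g n := by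
  induction K with
  | zero => exact ⟨1, one_pos, fun n hn => absurd hn (Nat.not_lt_zero n)⟩
  | succ K ih =>
    obtain ⟨δ, hδ, h⟩ := ih
    refine ⟨min δ (g K), lt_min hδ (hg K), fun n hn => ?_⟩
    rcases Nat.lt_or_ge n K with h1 | h1
    · exact (min_le_left _ _).trans (h n h1)
    · have : n = K := by omega
      rw [this]; exact min_le_right _ _

lemma exists_upper (g : ℕ → ℕ) (K : ℕ) : ∃ M : ℕ, ∀ n < K, g n ≤ M :=
  ⟨(range K).sup g, fun _ hn => le_sup (f := g) (mem_range.2 hn)⟩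

lemma Smooth.one_sign {K : ℕ} {C τ : ℝ} {N : ℕ} {A : ℝ} {F : ℕ → ℝ → ℝ} (h : Smooth K C τ N A F) (hC : 1 ≤ C) (hN : 1 ≤ N)
    (hA : 0 < A) {j : ℕ} (hj : 1 ≤ j) (hjK : j ≤ K + 1) :
    (∀ y : ℝ, N ≤ y → y ≤ 3 * N → F j y < 0) ∨ (∀ y : ℝ, N ≤ y → y ≤ 3 * N → 0 < F j y) := by
  have hNr : (1 : ℝ) ≤ N := by exact_mod_cast hN
  have hne : ∀ y : ℝ, N ≤ y → y ≤ 3 * N → F j y ≠ 0 := by
    intro y h1 h2 h0
    have h3 := (h.size j hj hjK y h1 h2).1
    rw [h0, abs_zero] at h3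
    have : 0 < A / (C * (N : ℝ) ^ j) := by positivity
    linarith
  have hcont : ContinuousOn (F j) (Set.Icc (N : ℝ) (3 * N)) := fun y hy =>
    (h.deriv j (by omega) y (by linarith [hy.1])).continuousAt.continuousWithinAt
  by_contra hcon
  push Not at hcon
  obtain ⟨⟨y1, a1, b1, c1⟩, ⟨y2, a2, b2, c2⟩⟩ := hcon
  have hpre : IsPreconnected (Set.Icc (N : ℝ) (3 * N)) := isPreconnected_Icc
  have h0 : (0 : ℝ) ∈ F j '' Set.Icc (N : ℝ) (3 * N) := by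
    refine (hpre.image (F j) hcont).ordConnected.out ⟨y2, ⟨a2, b2⟩, rfl⟩ ⟨y1, ⟨a1, b1⟩, rfl⟩ ⟨c2, c1⟩
  obtain ⟨y, hy, hy0⟩ := h0
  exact hne y hy.1 hy.2 hy0

lemma Smooth.sign_two {K : ℕ} {C τ : ℝ} {N : ℕ} {A : ℝ} {F : ℕ → ℝ → ℝ} (h : Smooth K C τ N A F) (hC : 1 ≤ C) (hN : 1 ≤ N)
    (hA : 0 < A) {q : ℕ} (hq : q ≤ K) :
    (∀ y : ℝ, N ≤ y → y ≤ 3 * N → F (q + 2) y ≤ 0) ∨ (∀ y : ℝ, N ≤ y → y ≤ 3 * N → 0 ≤ F (q + 2) y) := by
  rcases Nat.lt_or_ge q K with h1 | h1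
  · rcases h.one_sign hC hN hA (j := q + 2) (by omega) (by omega) with h2 | h2
    · exact Or.inl fun y a b => (h2 y a b).le
    · exact Or.inr fun y a b => (h2 y a b).le
  · have : q = K := by omega
    rw [this]; exact h.sign

/-- the multiple `σ α F` with positive derivative of order `q + 1` -/
lemma Smooth.normal {K : ℕ} {C τ : ℝ} {N : ℕ} {A : ℝ} {F : ℕ → ℝ → ℝ} (h : Smooth K C τ N A F) (hC : 1 ≤ C) (hN : 1 ≤ N)
    (hA : 0 < A) {q : ℕ} (hq : q ≤ K) {D : ℝ} (hD : 0 < D) : ∃ G : ℕ → ℝ → ℝ,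
      (∀ r < q + 2, ∀ x : ℝ, 0 < x → HasDerivAt (G r) (G (r + 1) x) x) ∧
      (∀ y : ℝ, N ≤ y → y ≤ 3 * N → D / (C * (N : ℝ) ^ (q + 1)) ≤ G (q + 1) y ∧ G (q + 1) y ≤ C * D / (N : ℝ) ^ (q + 1)) ∧
      ((∀ y : ℝ, N ≤ y → y ≤ 3 * N → G (q + 2) y ≤ 0) ∨ (∀ y : ℝ, N ≤ y → y ≤ 3 * N → 0 ≤ G (q + 2) y)) ∧
      ∀ a L : ℕ, ‖∑ n ∈ range L, e (D / A * F 0 ((a + n : ℕ) : ℝ))‖ = ‖∑ n ∈ range L, e (G 0 ((a + n : ℕ) : ℝ))‖ := by
  have hNr : (1 : ℝ) ≤ N := by exact_mod_cast hN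
  have hNp : (0 : ℝ) < N := by linarith
  have hDA : 0 < D / A := by positivity
  have hC0 : 0 < C := by linarith
  have hs2 := h.sign_two hC hN hA hq
  rcases h.one_sign hC hN hA (j := q + 1) (by omega) (by omega) with hs | hs
  · refine ⟨fun r x => -(D / A * F r x), fun r hr x hx => ((h.deriv r (by omega) x hx).const_mul _).neg, fun y h1 h2 => ?_, ?_,
      fun a L => (norm_sum_neg _ L).symm⟩
    · have h3 := h.size (q + 1) (by omega) (by omega) y h1 h2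
      rw [abs_of_neg (hs y h1 h2)] at h3
      have e1 : -(D / A * F (q + 1) y) = D / A * -F (q + 1) y := by ring
      simp only [e1]
      constructor
      · calc D / (C * (N : ℝ) ^ (q + 1)) = D / A * (A / (C * (N : ℝ) ^ (q + 1))) := by field_simp
          _ ≤ _ := mul_le_mul_of_nonneg_left h3.1 hDA.le
      · calc D / A * -F (q + 1) y ≤ D / A * (C * A / (N : ℝ) ^ (q + 1)) := mul_le_mul_of_nonneg_left h3.2 hDA.le
          _ = _ := by field_simp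
    · rcases hs2 with h3 | h3
      · right
        intro y h1 h2
        have := mul_nonneg hDA.le (neg_nonneg.2 (h3 y h1 h2))
        linarith
      · left
        intro y h1 h2
        have := mul_nonneg hDA.le (h3 y h1 h2)
        linarith
  · refine ⟨fun r x => D / A * F r x, fun r hr x hx => (h.deriv r (by omega) x hx).const_mul _, fun y h1 h2 => ?_, ?_,
      fun a L => rfl⟩
    · have h3 := h.size (q + 1) (by omega) (by omega) y h1 h2
      rw [abs_of_pos (hs y h1 h2)] at h3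
      constructor
      · calc D / (C * (N : ℝ) ^ (q + 1)) = D / A * (A / (C * (N : ℝ) ^ (q + 1))) := by field_simp
          _ ≤ _ := mul_le_mul_of_nonneg_left h3.1 hDA.le
      · calc D / A * F (q + 1) y ≤ D / A * (C * A / (N : ℝ) ^ (q + 1)) := mul_le_mul_of_nonneg_left h3.2 hDA.le
          _ = _ := by field_simp
    · rcases hs2 with h3 | h3
      · left
        intro y h1 h2
        exact mul_nonpos_of_nonneg_of_nonpos hDA.le (h3 y h1 h2)
      · right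
        intro y h1 h2
        exact mul_nonneg hDA.le (h3 y h1 h2)

/-- **Exponential sums at all frequencies.** -/
theorem all_freq (K : ℕ) (C τ : ℝ) (hC : 1 ≤ C) (hτ : 0 < τ) : ∃ δ : ℝ, 0 < δ ∧ ∃ N₀ : ℕ, ∀ N : ℕ, N₀ ≤ N →
    ∀ (A : ℝ) (F : ℕ → ℝ → ℝ), Smooth K C τ N A F → ∀ D : ℝ, 1 ≤ D → D ≤ A →
    ∀ a L : ℕ, N ≤ a → L ≤ N → a + L ≤ 3 * N →
      ‖∑ n ∈ range L, e (D / A * F 0 ((a + n : ℕ) : ℝ))‖ ≤ 2 * C * N * (1 / D + (N : ℝ) ^ (-δ)) := by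
  obtain ⟨τ', hτ'⟩ : ∃ τ' : ℝ, τ' = min τ (1 / 8) := ⟨_, rfl⟩
  have hτ'0 : 0 < τ' := by rw [hτ']; exact lt_min hτ (by norm_num)
  have hτ'1 : τ' ≤ 1 / 8 := by rw [hτ']; exact min_le_right _ _
  have hτ'2 : τ' ≤ τ := by rw [hτ']; exact min_le_left _ _
  have hr := fun q' : ℕ => range_sum (q' + 1) (by omega) C τ' hC hτ'0
  choose γ hγ N₁ h1 using hr
  obtain ⟨δ, hδ, hδγ⟩ := exists_lower γ hγ K
  obtain ⟨M, hM⟩ := exists_upper N₁ K
  have hev : ∀ᶠ N : ℕ in Filter.atTop, 2 * C ≤ (N : ℝ) ^ τ' ∧ M ≤ N ∧ 1 ≤ N := by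
    have h1 : Filter.Tendsto (fun x : ℝ => x ^ τ') Filter.atTop Filter.atTop := tendsto_rpow_atTop hτ'0
    filter_upwards [(h1.comp tendsto_natCast_atTop_atTop).eventually (Filter.eventually_ge_atTop _),
      Filter.eventually_ge_atTop M, Filter.eventually_ge_atTop 1] with N a1 a2 a3
    exact ⟨a1, a2, a3⟩
  obtain ⟨N₀, hN₀⟩ := Filter.eventually_atTop.1 hev
  refine ⟨δ, hδ, N₀, fun N hN A F hF D hD1 hDA a L ha hL haL => ?_⟩
  obtain ⟨a1, a2, hN1⟩ := hN₀ N hN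
  have hNr : (1 : ℝ) ≤ N := by exact_mod_cast hN1
  have hNp : (0 : ℝ) < N := by linarith
  have hD0 : 0 < D := by linarith
  have hA0 : 0 < A := by linarith
  have hC0 : 0 < C := by linarith
  rcases le_or_gt D ((N : ℝ) / (2 * C)) with hcase | hcase
  · obtain ⟨G, g1, g2, g3, g4⟩ := hF.normal hC hN1 hA0 (q := 0) (Nat.zero_le _) hD0
    rw [g4]
    have h := SF_le_both (q := 0) g1 (m := D / (C * (N : ℝ) ^ 1)) (M := C * D / (N : ℝ) ^ 1) (by positivity) N a L hN1 ha haL g2 g3 [] rfl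
      (by simp) (by
        simp only [List.prod_nil, Nat.cast_one, mul_one, pow_one]
        rw [le_div_iff₀ (by positivity)] at hcase
        rw [← mul_div_assoc, div_le_one hNp]
        linarith)
    have hsum : ∑ n ∈ range L, e (G 0 ((a + n : ℕ) : ℝ)) = SF G a L [] := by
      unfold SF
      simp only [List.sum_nil, Nat.sub_zero, DF]
    rw [hsum]
    refine h.trans ?_
    simp only [List.prod_nil, Nat.cast_one, mul_one, pow_one]
    calc 2 / (D / (C * N)) = 2 * C * N * (1 / D) := by field_simp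
      _ ≤ 2 * C * N * (1 / D + (N : ℝ) ^ (-δ)) := by
          gcongr
          have : 0 < (N : ℝ) ^ (-δ) := by positivity
          linarith
  · -- the order
    have hex : ∃ q : ℕ, D ≤ (N : ℝ) ^ ((q : ℝ) + 1 - τ') := ⟨K, hDA.trans (hF.le.trans
      (Real.rpow_le_rpow_of_exponent_le hNr (by linarith)))⟩
    classical
    obtain ⟨q, hq⟩ : ∃ q, q = Nat.find hex := ⟨_, rfl⟩
    have hq1 : D ≤ (N : ℝ) ^ ((q : ℝ) + 1 - τ') := by rw [hq]; exact Nat.find_spec hex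
    have hqK : q ≤ K := by
      rw [hq]
      exact Nat.find_min' hex (hDA.trans (hF.le.trans (Real.rpow_le_rpow_of_exponent_le hNr (by linarith))))
    have hq0 : q ≠ 0 := by
      intro h0
      rw [h0] at hq1
      have : (N : ℝ) ^ (((0 : ℕ) : ℝ) + 1 - τ') ≤ N / (2 * C) := by
        rw [le_div_iff₀ (by positivity)]
        calc (N : ℝ) ^ (((0 : ℕ) : ℝ) + 1 - τ') * (2 * C) ≤ (N : ℝ) ^ (((0 : ℕ) : ℝ) + 1 - τ') * (N : ℝ) ^ τ' := by gcongr
          _ = N := by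
              rw [← Real.rpow_add hNp]
              push_cast
              rw [show (0 : ℝ) + 1 - τ' + τ' = 1 by ring, Real.rpow_one]
      exact absurd (hq1.trans this) (not_le.2 hcase)
    obtain ⟨q', rfl⟩ : ∃ q', q = q' + 1 := ⟨q - 1, by omega⟩
    have hmin : (N : ℝ) ^ ((q' : ℝ) + 1 - τ') < D := by
      have := Nat.find_min hex (m := q') (by omega)
      push Not at this
      exact this
    obtain ⟨G, g1, g2, g3, g4⟩ := hF.normal hC hN1 hA0 hqK hD0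
    rw [g4]
    have h := h1 q' N ((hM q' (by omega)).trans a2) G D g1 (by
      refine le_trans (Real.rpow_le_rpow_of_exponent_le hNr ?_) hmin.le
      push_cast
      linarith) hq1 g2 g3 a L ha hL haL
    refine h.trans ?_
    have e1 : (N : ℝ) ^ (-(γ q')) ≤ (N : ℝ) ^ (-δ) := Real.rpow_le_rpow_of_exponent_le hNr (by
      have := hδγ q' (by omega)
      linarith)
    have e2 : 0 < (N : ℝ) ^ (-δ) := by positivity
    have e3 : 0 < 1 / D := by positivity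
    calc (N : ℝ) * (N : ℝ) ^ (-(γ q')) ≤ N * (N : ℝ) ^ (-δ) := by gcongr
      _ ≤ (2 * C * N) * (N : ℝ) ^ (-δ) := by
          gcongr
          nlinarith
      _ ≤ _ := by
          gcongr
          linarith

end Pool.Agent.K7.H67.EN
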