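import Pool.Agent.K7.H67.VDC.Diff

/-!
# Exponential sums `∑ e(F(n))` with `F^(q+1)` of one sign and monotone, in both directions (helper67)
-/

set_option autoImplicit false

namespace Pool.Agent.K7.H67.EN

open Finset
open Pool.Agent.H469R2.NK Pool.Agent.K7.H67.VDC

/-- last step: Kusmin–Landau, increasing derivative -/
lemma SF_le_mono {F : ℕ → ℝ → ℝ} {q : ℕ} (hF : ∀ r < q + 2, ∀ x : ℝ, 0 < x → HasDerivAt (F r) (F (r + 1) x) x) {m M : ℝ} (hm : 0 < m)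
    (N a L : ℕ) (hN : 1 ≤ N) (ha : N ≤ a) (haL : a + L ≤ 3 * N)
    (hb : ∀ y : ℝ, N ≤ y → y ≤ 3 * N → m ≤ F (q + 1) y ∧ F (q + 1) y ≤ M)
    (hneg : ∀ y : ℝ, N ≤ y → y ≤ 3 * N → 0 ≤ F (q + 2) y)
    (ls : List ℕ) (hlen : ls.length = q) (hls : 0 < ls.prod) (hup : 2 * (M * (ls.prod : ℕ)) ≤ 1) :
    ‖SF F a L ls‖ ≤ 2 / (m * (ls.prod : ℕ)) := by
  have hN' : (0 : ℝ) < N := by exact_mod_cast hN
  have hP : (0 : ℝ) < (ls.prod : ℕ) := by exact_mod_cast hls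
  rcases Nat.lt_or_ge L (ls.sum + 1) with hL | hL
  · unfold SF
    rw [show L - ls.sum = 0 by omega]
    simp only [range_zero, sum_empty, norm_zero]
    positivity
  obtain ⟨θ, hθ⟩ : ∃ θ : ℝ, θ = m * (ls.prod : ℕ) := ⟨_, rfl⟩
  have hθ0 : 0 < θ := by rw [hθ]; positivity
  have hx1 : ∀ n < L - ls.sum, θ ≤ DF F (1 :: ls) 0 ((a + n : ℕ) : ℝ) ∧ DF F (1 :: ls) 0 ((a + n : ℕ) : ℝ) ≤ 1 / 2 := by
    intro n hn
    have hxN : (N : ℝ) ≤ ((a + n : ℕ) : ℝ) := by exact_mod_cast (by omega : N ≤ a + n)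
    have hs : ((a + n : ℕ) : ℝ) + ((1 :: ls).sum : ℕ) ≤ 3 * N := by rw [List.sum_cons]; norm_cast; omega
    have hr : (1 :: ls).length + 0 ≤ q + 2 := by simp only [List.length_cons]; omega
    have h1 := DF_ge (m := m) hF hN' (1 :: ls) 0 hr (by
      intro y h1 h2
      rw [List.length_cons, hlen, add_zero]
      exact (hb y h1 h2).1) hxN hs
    have h2 := DF_le (M := M) hF hN' (1 :: ls) 0 hr (by
      intro y h1 h2
      rw [List.length_cons, hlen, add_zero]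
      exact (hb y h1 h2).2) hxN hs
    simp only [List.prod_cons, one_mul] at h1 h2
    rw [hθ]
    exact ⟨h1, h2.trans (by linarith)⟩
  have hθ2 : θ ≤ 1 / 2 := (hx1 0 (by omega)).1.trans (hx1 0 (by omega)).2
  have hdiff : ∀ n : ℕ, DF F ls 0 ((a + (n + 1) : ℕ) : ℝ) - DF F ls 0 ((a + n : ℕ) : ℝ) = DF F (1 :: ls) 0 ((a + n : ℕ) : ℝ) := by
    intro n
    simp only [DF]
    push_cast
    rw [show (a : ℝ) + n + 1 = a + (n + 1) by ring]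
  have hdiff2 : ∀ n, n + 1 < L - ls.sum → DF F (1 :: ls) 0 ((a + n : ℕ) : ℝ) ≤ DF F (1 :: ls) 0 ((a + (n + 1) : ℕ) : ℝ) := by
    intro n hn
    have hxN : (N : ℝ) ≤ ((a + n : ℕ) : ℝ) := by exact_mod_cast (by omega : N ≤ a + n)
    have h := DF_ge (m := 0) hF hN' (1 :: 1 :: ls) 0 (by simp only [List.length_cons]; omega) (by
      intro y h1 h2
      rw [List.length_cons, List.length_cons, hlen, add_zero]
      exact hneg y h1 h2) hxN (by rw [List.sum_cons, List.sum_cons]; norm_cast; omega)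
    have h2 : DF F (1 :: 1 :: ls) 0 ((a + n : ℕ) : ℝ) =
        DF F (1 :: ls) 0 ((a + (n + 1) : ℕ) : ℝ) - DF F (1 :: ls) 0 ((a + n : ℕ) : ℝ) := by
      conv_lhs => rw [DF]
      push_cast
      rw [show (a : ℝ) + n + 1 = a + (n + 1) by ring]
    rw [h2, zero_mul] at h
    linarith
  have hKL := kusmin_landau_mono (fun n => DF F ls 0 ((a + n : ℕ) : ℝ)) (L - ls.sum) hθ0
    (fun n hn => by rw [hdiff]; exact (hx1 n hn).1)
    (fun n hn => by rw [hdiff]; linarith [(hx1 n hn).2])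
    (fun n hn => by
      rw [hdiff, hdiff]
      exact hdiff2 n hn)
  refine hKL.trans (le_of_eq ?_)
  rw [hθ]

/-- both directions -/
lemma SF_le_both {F : ℕ → ℝ → ℝ} {q : ℕ} (hF : ∀ r < q + 2, ∀ x : ℝ, 0 < x → HasDerivAt (F r) (F (r + 1) x) x) {m M : ℝ} (hm : 0 < m)
    (N a L : ℕ) (hN : 1 ≤ N) (ha : N ≤ a) (haL : a + L ≤ 3 * N)
    (hb : ∀ y : ℝ, N ≤ y → y ≤ 3 * N → m ≤ F (q + 1) y ∧ F (q + 1) y ≤ M)
    (hs : (∀ y : ℝ, N ≤ y → y ≤ 3 * N → F (q + 2) y ≤ 0) ∨ (∀ y : ℝ, N ≤ y → y ≤ 3 * N → 0 ≤ F (q + 2) y))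
    (ls : List ℕ) (hlen : ls.length = q) (hls : 0 < ls.prod) (hup : 2 * (M * (ls.prod : ℕ)) ≤ 1) :
    ‖SF F a L ls‖ ≤ 2 / (m * (ls.prod : ℕ)) := by
  rcases hs with hs | hs
  · exact SF_le hF hm N a L hN ha haL hb hs ls hlen hls hup
  · exact SF_le_mono hF hm N a L hN ha haL hb hs ls hlen hls hup

lemma exp_bound_both {F : ℕ → ℝ → ℝ} {q : ℕ} (hF : ∀ r < q + 2, ∀ x : ℝ, 0 < x → HasDerivAt (F r) (F (r + 1) x) x) {m M : ℝ} (hm : 0 < m)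
    (N a L H : ℕ) (hN : 1 ≤ N) (ha : N ≤ a) (hL : L ≤ N) (haL : a + L ≤ 3 * N) (hH : 1 ≤ H) (hHN : H ≤ N)
    (hb : ∀ y : ℝ, N ≤ y → y ≤ 3 * N → m ≤ F (q + 1) y ∧ F (q + 1) y ≤ M)
    (hs : (∀ y : ℝ, N ≤ y → y ≤ 3 * N → F (q + 2) y ≤ 0) ∨ (∀ y : ℝ, N ≤ y → y ≤ 3 * N → 0 ≤ F (q + 2) y))
    (hup : 2 * (M * (H : ℝ) ^ q) ≤ 1) :
    (‖SF F a L []‖ / N) ^ (2 ^ q) ≤ Cq q * (1 / H + (2 / (m * N)) * ((∑ l ∈ Ico 1 H, (1 : ℝ) / l) / H) ^ q) := by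
  have hN' : (1 : ℝ) ≤ N := by exact_mod_cast hN
  have hH' : (1 : ℝ) ≤ H := by exact_mod_cast hH
  have hL' : (L : ℝ) ≤ N := by exact_mod_cast hL
  have hHN' : (H : ℝ) ≤ N := by exact_mod_cast hHN
  have hM0 : 0 ≤ M := by
    have h1 := hb N le_rfl (by linarith)
    linarith
  have hstep : ∀ ls : List ℕ, (‖SF F a L ls‖ / N) ^ 2 ≤
      2 / H + 4 * ((∑ l ∈ Ico 1 H, ‖SF F a L (l :: ls)‖ / N) / H) := by
    intro ls
    have h := SF_sq F a L H ls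
    set Sg := ∑ l ∈ Ico 1 H, ‖SF F a L (l :: ls)‖ with hSg
    have hSg0 : 0 ≤ Sg := sum_nonneg fun _ _ => norm_nonneg _
    have h2 : (H : ℝ) * ‖SF F a L ls‖ ^ 2 ≤ (2 * N) * (N + 2 * Sg) := by
      refine h.trans ?_
      have : (L : ℝ) + H ≤ 2 * N := by linarith
      gcongr
    rw [← sum_div, ← hSg]
    have e1 : 2 / (H : ℝ) + 4 * (Sg / N / H) = ((2 * N) * (N + 2 * Sg)) / (H * N ^ 2) := by
      field_simp
      ring
    rw [e1, div_pow, div_le_div_iff₀ (by positivity) (by positivity)]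
    calc ‖SF F a L ls‖ ^ 2 * (H * N ^ 2) = ((H : ℝ) * ‖SF F a L ls‖ ^ 2) * N ^ 2 := by ring
      _ ≤ _ := by gcongr
  have hit := iterate hH (fun ls => ‖SF F a L ls‖ / N) (fun ls => by positivity) hstep q []
  refine hit.trans ?_
  have hC := Cq_pos q
  gcongr
  have := Av_le (H := H) (T := fun ls => ‖SF F a L ls‖ / N) (κ := 2 / (m * N)) q (by
      intro ls hlen hent
      have hpos : 0 < ls.prod := List.prod_pos fun l hl => (hent l hl).1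
      have hle : ls.prod ≤ H ^ q := by
        have := List.prod_le_pow_card ls H (fun l hl => (hent l hl).2.le)
        rwa [hlen] at this
      have hle' : ((ls.prod : ℕ) : ℝ) ≤ (H : ℝ) ^ q := by exact_mod_cast hle
      have h1 := SF_le_both hF hm N a L hN ha haL hb hs ls hlen hpos (by
        refine le_trans ?_ hup
        gcongr)
      have hP : (0 : ℝ) < (ls.prod : ℕ) := by exact_mod_cast hpos
      calc ‖SF F a L ls‖ / N ≤ (2 / (m * (ls.prod : ℕ))) / N := by gcongr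
        _ = _ := by field_simp) q [] (by simp) (by simp)
  simpa using this

lemma one_add_log_le {t : ℝ} (ht : 1 ≤ t) : 1 + Real.log t ≤ 4 * t ^ (1 / 4 : ℝ) := by
  have h0 : (0 : ℝ) < t := by linarith
  have h1 := Real.log_le_sub_one_of_pos (show 0 < t ^ (1 / 4 : ℝ) by positivity)
  rw [Real.log_rpow h0] at h1
  linarith

/-- **Exponential sums with a power saving.** Derivatives of order `q + 1` of size `D / N ^ (q + 1)`, where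
`N ^ (q - 1/8) ≤ D ≤ N ^ (q + 1 - τ)`. -/
theorem range_sum (q : ℕ) (hq : 1 ≤ q) (C τ : ℝ) (hC : 1 ≤ C) (hτ : 0 < τ) : ∃ γ : ℝ, 0 < γ ∧ ∃ N₀ : ℕ, ∀ N : ℕ, N₀ ≤ N →
    ∀ (F : ℕ → ℝ → ℝ) (D : ℝ), (∀ r < q + 2, ∀ x : ℝ, 0 < x → HasDerivAt (F r) (F (r + 1) x) x) →
    (N : ℝ) ^ ((q : ℝ) - 1 / 8) ≤ D → D ≤ (N : ℝ) ^ ((q : ℝ) + 1 - τ) →
    (∀ y : ℝ, N ≤ y → y ≤ 3 * N → D / (C * (N : ℝ) ^ (q + 1)) ≤ F (q + 1) y ∧ F (q + 1) y ≤ C * D / (N : ℝ) ^ (q + 1)) →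
    ((∀ y : ℝ, N ≤ y → y ≤ 3 * N → F (q + 2) y ≤ 0) ∨ (∀ y : ℝ, N ≤ y → y ≤ 3 * N → 0 ≤ F (q + 2) y)) →
    ∀ a L : ℕ, N ≤ a → L ≤ N → a + L ≤ 3 * N → ‖∑ n ∈ range L, e (F 0 ((a + n : ℕ) : ℝ))‖ ≤ N * (N : ℝ) ^ (-γ) := by
  have hq1 : (1 : ℝ) ≤ q := by exact_mod_cast hq
  obtain ⟨σ, hσ⟩ : ∃ σ : ℝ, σ = min τ (1 / 4) / (2 * q) := ⟨_, rfl⟩
  have hτ1 : 0 < min τ (1 / 4) := lt_min hτ (by norm_num)
  have hσ0 : 0 < σ := by rw [hσ]; positivity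
  have hστ : σ * (2 * q) = min τ (1 / 4) := by rw [hσ]; field_simp
  have hσ1 : σ ≤ 1 / 8 := by
    have h1 : min τ (1 / 4) ≤ 1 / 4 := min_le_right _ _
    have h2 : σ * 2 ≤ σ * (2 * q) := by
      have : σ * (2 * 1) ≤ σ * (2 * q) := by gcongr
      linarith
    linarith
  obtain ⟨γ, hγ⟩ : ∃ γ : ℝ, γ = σ / (2 * 2 ^ q) := ⟨_, rfl⟩
  have hγ0 : 0 < γ := by rw [hγ]; positivity
  have hγq : γ * 2 ^ q = σ / 2 := by rw [hγ]; field_simp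
  have hCq := Cq_pos q
  obtain ⟨K, hK⟩ : ∃ K : ℝ, K = Cq q * (2 * (2 * C) + 4 * C ^ 2 * (8 : ℝ) ^ q) := ⟨_, rfl⟩
  have hK0 : 0 < K := by rw [hK]; positivity
  have hev : ∀ᶠ N : ℕ in Filter.atTop, 2 * C ≤ (N : ℝ) ^ τ ∧ K < (N : ℝ) ^ (σ / 2) ∧ 1 ≤ N := by
    have h1 : Filter.Tendsto (fun x : ℝ => x ^ τ) Filter.atTop Filter.atTop := tendsto_rpow_atTop hτ
    have h2 : Filter.Tendsto (fun x : ℝ => x ^ (σ / 2)) Filter.atTop Filter.atTop := tendsto_rpow_atTop (by positivity)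
    filter_upwards [(h1.comp tendsto_natCast_atTop_atTop).eventually (Filter.eventually_ge_atTop _),
      (h2.comp tendsto_natCast_atTop_atTop).eventually (Filter.eventually_gt_atTop _), Filter.eventually_ge_atTop 1] with N a1 a2 a3
    exact ⟨a1, a2, a3⟩
  obtain ⟨N₀, hN₀⟩ := Filter.eventually_atTop.1 hev
  refine ⟨γ, hγ0, N₀, fun N hN F D hF hD1 hD2 hb hs a L ha hL haL => ?_⟩
  obtain ⟨a1, a2, hN1⟩ := hN₀ N hN
  have hNr : (1 : ℝ) ≤ N := by exact_mod_cast hN1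
  have hNp : (0 : ℝ) < N := by linarith
  have hD0 : 0 < D := lt_of_lt_of_le (by positivity) hD1
  -- the size of `H`
  obtain ⟨Y, hY⟩ : ∃ Y : ℝ, Y = (N : ℝ) ^ (q + 1) / (2 * C * D) := ⟨_, rfl⟩
  have hY0 : 0 < Y := by rw [hY]; positivity
  have hNq : (N : ℝ) ^ (q + 1) = (N : ℝ) ^ ((q : ℝ) + 1) := by
    rw [← Real.rpow_natCast]; push_cast; rfl
  have hYle : Y ≤ (N : ℝ) ^ (9 / 8 : ℝ) := by
    rw [hY, div_le_iff₀ (by positivity)]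
    calc (N : ℝ) ^ (q + 1) = (N : ℝ) ^ (9 / 8 : ℝ) * (N : ℝ) ^ ((q : ℝ) - 1 / 8) := by
          rw [hNq, ← Real.rpow_add hNp]; congr 1; ring
      _ ≤ (N : ℝ) ^ (9 / 8 : ℝ) * D := by gcongr
      _ ≤ (N : ℝ) ^ (9 / 8 : ℝ) * (2 * C * D) := by
          gcongr
          nlinarith
  have hYge : (N : ℝ) ^ τ / (2 * C) ≤ Y := by
    rw [hY, div_le_div_iff₀ (by positivity) (by positivity)]
    calc (N : ℝ) ^ τ * (2 * C * D) ≤ (N : ℝ) ^ τ * (2 * C * (N : ℝ) ^ ((q : ℝ) + 1 - τ)) := by gcongr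
      _ = ((N : ℝ) ^ τ * (N : ℝ) ^ ((q : ℝ) + 1 - τ)) * (2 * C) := by ring
      _ = (N : ℝ) ^ (q + 1) * (2 * C) := by
          rw [hNq, ← Real.rpow_add hNp]; congr 2; ring
  have hY1 : 1 ≤ Y := by
    refine le_trans ?_ hYge
    rw [le_div_iff₀ (by positivity), one_mul]
    exact a1
  obtain ⟨κ, hκ⟩ : ∃ κ : ℝ, κ = 1 / (2 * q) := ⟨_, rfl⟩
  have hκ0 : 0 < κ := by rw [hκ]; positivity
  have hκq : κ * q = 1 / 2 := by rw [hκ]; field_simp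
  have hκ1 : κ ≤ 1 / 2 := by
    have : κ * 1 ≤ κ * q := by gcongr
    linarith
  have hYκ1 : 1 ≤ Y ^ κ := Real.one_le_rpow hY1 hκ0.le
  obtain ⟨H, hH⟩ : ∃ H, H = ⌊Y ^ κ⌋₊ := ⟨_, rfl⟩
  have hHle : (H : ℝ) ≤ Y ^ κ := by rw [hH]; exact Nat.floor_le (by positivity)
  have hHge : Y ^ κ / 2 ≤ H := by
    have h4 : Y ^ κ < H + 1 := by rw [hH]; exact Nat.lt_floor_add_one _
    have h5 : (1 : ℝ) ≤ H := by
      have : 1 ≤ H := by rw [hH]; exact Nat.le_floor (by simpa using hYκ1)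
      exact_mod_cast this
    linarith
  have hH1 : 1 ≤ H := by rw [hH]; exact Nat.le_floor (by simpa using hYκ1)
  have hHp : (0 : ℝ) < H := by exact_mod_cast hH1
  have hHr1 : (1 : ℝ) ≤ H := by exact_mod_cast hH1
  have hHN : H ≤ N := by
    have h3 : (H : ℝ) ≤ N := by
      refine hHle.trans ?_
      calc Y ^ κ ≤ ((N : ℝ) ^ (9 / 8 : ℝ)) ^ (1 / 2 : ℝ) := by
            calc Y ^ κ ≤ Y ^ (1 / 2 : ℝ) := Real.rpow_le_rpow_of_exponent_le hY1 hκ1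
              _ ≤ _ := Real.rpow_le_rpow hY0.le hYle (by norm_num)
        _ = (N : ℝ) ^ (9 / 8 * (1 / 2) : ℝ) := by rw [← Real.rpow_mul hNp.le]
        _ ≤ (N : ℝ) ^ (1 : ℝ) := Real.rpow_le_rpow_of_exponent_le hNr (by norm_num)
        _ = N := Real.rpow_one _
    exact_mod_cast h3
  have hHq : (H : ℝ) ^ q ≤ Y ^ (1 / 2 : ℝ) := by
    calc (H : ℝ) ^ q ≤ (Y ^ κ) ^ q := by gcongr
      _ = Y ^ (1 / 2 : ℝ) := by
          rw [← Real.rpow_natCast, ← Real.rpow_mul hY0.le, hκq]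
  have hHq2 : (H : ℝ) ^ q ≤ Y := hHq.trans (by
    calc Y ^ (1 / 2 : ℝ) ≤ Y ^ (1 : ℝ) := Real.rpow_le_rpow_of_exponent_le hY1 (by norm_num)
      _ = Y := Real.rpow_one _)
  have h := exp_bound_both (F := F) (q := q) (m := D / (C * (N : ℝ) ^ (q + 1))) (M := C * D / (N : ℝ) ^ (q + 1)) hF
    (by positivity) N a L H hN1 ha hL haL hH1 hHN hb hs (by
      calc 2 * (C * D / (N : ℝ) ^ (q + 1) * (H : ℝ) ^ q) ≤ 2 * (C * D / (N : ℝ) ^ (q + 1) * Y) := by gcongr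
        _ = 1 := by rw [hY]; field_simp)
  have hsum : ∑ n ∈ range L, e (F 0 ((a + n : ℕ) : ℝ)) = SF F a L [] := by
    unfold SF
    simp only [List.sum_nil, Nat.sub_zero, DF]
  rw [hsum]
  by_contra hcon
  push Not at hcon
  have h1 : (N : ℝ) ^ (-γ) < ‖SF F a L []‖ / N := by
    rw [lt_div_iff₀ hNp, mul_comm]
    exact hcon
  have h2 : ((N : ℝ) ^ (-γ)) ^ (2 ^ q) < (‖SF F a L []‖ / N) ^ (2 ^ q) :=
    pow_lt_pow_left₀ h1 (by positivity) (by positivity)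
  have h3 : ((N : ℝ) ^ (-γ)) ^ (2 ^ q) = (N : ℝ) ^ (-(σ / 2)) := by
    rw [← Real.rpow_natCast, ← Real.rpow_mul hNp.le]
    congr 1
    push_cast
    rw [neg_mul, hγq]
  -- first term
  have h5 : 1 / (H : ℝ) ≤ 2 * (2 * C) * (N : ℝ) ^ (-σ) := by
    have e1 : (N : ℝ) ^ σ / (2 * C) ≤ Y ^ κ := by
      calc (N : ℝ) ^ σ / (2 * C) ≤ (N : ℝ) ^ (τ * κ) / (2 * C) ^ κ := by
            have f1 : σ ≤ τ * κ := by
              have g1 : σ * (2 * q) ≤ τ := by rw [hστ]; exact min_le_left _ _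
              have g2 : σ = σ * (2 * q) * κ := by rw [hκ]; field_simp
              rw [g2]
              gcongr
            have f2 : (2 * C) ^ κ ≤ 2 * C := by
              calc (2 * C) ^ κ ≤ (2 * C) ^ (1 : ℝ) := Real.rpow_le_rpow_of_exponent_le (by linarith) (by linarith)
                _ = 2 * C := Real.rpow_one _
            have f3 : (N : ℝ) ^ σ ≤ (N : ℝ) ^ (τ * κ) := Real.rpow_le_rpow_of_exponent_le hNr f1
            gcongr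
        _ = ((N : ℝ) ^ τ / (2 * C)) ^ κ := by
            rw [Real.div_rpow (by positivity) (by positivity), ← Real.rpow_mul hNp.le]
        _ ≤ Y ^ κ := Real.rpow_le_rpow (by positivity) hYge hκ0.le
    rw [div_le_iff₀ hHp, Real.rpow_neg hNp.le]
    have e2 : (N : ℝ) ^ σ / (2 * C) / 2 ≤ H := le_trans (by linarith) hHge
    have hNσ : 0 < (N : ℝ) ^ σ := by positivity
    calc (1 : ℝ) = 2 * (2 * C) * ((N : ℝ) ^ σ)⁻¹ * ((N : ℝ) ^ σ / (2 * C) / 2) := by field_simp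
      _ ≤ 2 * (2 * C) * ((N : ℝ) ^ σ)⁻¹ * H := by gcongr
  -- second term
  have h4 : (∑ l ∈ Ico 1 H, (1 : ℝ) / l) / H ≤ 4 * (H : ℝ) ^ (-(3 / 4) : ℝ) := by
    rw [div_le_iff₀ hHp]
    calc ∑ l ∈ Ico 1 H, (1 : ℝ) / l ≤ 1 + Real.log H := harm_le H
      _ ≤ 4 * (H : ℝ) ^ (1 / 4 : ℝ) := one_add_log_le hHr1
      _ = 4 * (H : ℝ) ^ (-(3 / 4) : ℝ) * H := by
          have : (H : ℝ) ^ (1 / 4 : ℝ) = (H : ℝ) ^ (-(3 / 4) : ℝ) * H := by
            nth_rewrite 3 [← Real.rpow_one (H : ℝ)]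
            rw [← Real.rpow_add hHp]
            congr 1; norm_num
          rw [this]; ring
  have h40 : 0 ≤ (∑ l ∈ Ico 1 H, (1 : ℝ) / l) / H := by positivity
  have h6 : ((∑ l ∈ Ico 1 H, (1 : ℝ) / l) / H) ^ q ≤ 8 ^ q * Y ^ (-(3 / 8) : ℝ) := by
    calc ((∑ l ∈ Ico 1 H, (1 : ℝ) / l) / H) ^ q ≤ (4 * (H : ℝ) ^ (-(3 / 4) : ℝ)) ^ q := by gcongr
      _ ≤ (4 * (2 * (Y ^ κ) ^ (-(3 / 4) : ℝ))) ^ q := by
          have g1 : (H : ℝ) ^ (-(3 / 4) : ℝ) ≤ 2 * (Y ^ κ) ^ (-(3 / 4) : ℝ) := by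
            calc (H : ℝ) ^ (-(3 / 4) : ℝ) ≤ (Y ^ κ / 2) ^ (-(3 / 4) : ℝ) :=
                  Real.rpow_le_rpow_of_nonpos (by positivity) hHge (by norm_num)
              _ = (Y ^ κ) ^ (-(3 / 4) : ℝ) / 2 ^ (-(3 / 4) : ℝ) := by
                  rw [Real.div_rpow (by positivity) (by norm_num)]
              _ = (2 : ℝ) ^ (3 / 4 : ℝ) * (Y ^ κ) ^ (-(3 / 4) : ℝ) := by
                  rw [Real.rpow_neg (by norm_num : (0 : ℝ) ≤ 2)]; field_simp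
              _ ≤ 2 * (Y ^ κ) ^ (-(3 / 4) : ℝ) := by
                  have : (2 : ℝ) ^ (3 / 4 : ℝ) ≤ 2 := by
                    calc (2 : ℝ) ^ (3 / 4 : ℝ) ≤ 2 ^ (1 : ℝ) := Real.rpow_le_rpow_of_exponent_le (by norm_num) (by norm_num)
                      _ = 2 := Real.rpow_one _
                  gcongr
          gcongr
      _ = 8 ^ q * Y ^ (-(3 / 8) : ℝ) := by
          rw [show 4 * (2 * (Y ^ κ) ^ (-(3 / 4) : ℝ)) = 8 * (Y ^ κ) ^ (-(3 / 4) : ℝ) by ring, mul_pow]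
          congr 1
          rw [← Real.rpow_mul hY0.le, ← Real.rpow_natCast, ← Real.rpow_mul hY0.le]
          congr 1
          calc κ * -(3 / 4) * q = (κ * q) * -(3 / 4) := by ring
            _ = _ := by rw [hκq]; norm_num
  have h7 : 2 / (D / (C * (N : ℝ) ^ (q + 1)) * N) = 4 * C ^ 2 * Y / N := by
    rw [hY]; field_simp; ring
  have h8 : (‖SF F a L []‖ / N) ^ (2 ^ q) ≤ K * (N : ℝ) ^ (-σ) := by
    refine h.trans ?_
    rw [h7]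
    calc Cq q * (1 / H + 4 * C ^ 2 * Y / N * ((∑ l ∈ Ico 1 H, (1 : ℝ) / l) / H) ^ q)
        ≤ Cq q * (2 * (2 * C) * (N : ℝ) ^ (-σ) + 4 * C ^ 2 * Y / N * (8 ^ q * Y ^ (-(3 / 8) : ℝ))) := by gcongr
      _ = Cq q * (2 * (2 * C) * (N : ℝ) ^ (-σ) + 4 * C ^ 2 * 8 ^ q * (Y ^ (5 / 8 : ℝ) / N)) := by
          have : Y ^ (5 / 8 : ℝ) = Y * Y ^ (-(3 / 8) : ℝ) := by
            nth_rewrite 2 [← Real.rpow_one Y]
            rw [← Real.rpow_add hY0]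
            congr 1; norm_num
          rw [this]; ring
      _ ≤ Cq q * (2 * (2 * C) * (N : ℝ) ^ (-σ) + 4 * C ^ 2 * 8 ^ q * (N : ℝ) ^ (-σ)) := by
          have g1 : Y ^ (5 / 8 : ℝ) / N ≤ (N : ℝ) ^ (-σ) := by
            rw [div_le_iff₀ hNp]
            calc Y ^ (5 / 8 : ℝ) ≤ ((N : ℝ) ^ (9 / 8 : ℝ)) ^ (5 / 8 : ℝ) := Real.rpow_le_rpow hY0.le hYle (by norm_num)
              _ = (N : ℝ) ^ (9 / 8 * (5 / 8) : ℝ) := by rw [← Real.rpow_mul hNp.le]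
              _ ≤ (N : ℝ) ^ (-σ + 1) := Real.rpow_le_rpow_of_exponent_le hNr (by linarith)
              _ = (N : ℝ) ^ (-σ) * N := by rw [Real.rpow_add hNp, Real.rpow_one]
          gcongr
      _ = K * (N : ℝ) ^ (-σ) := by rw [hK]; ring
  have h9 : K * (N : ℝ) ^ (-σ) < (N : ℝ) ^ (-(σ / 2)) := by
    calc K * (N : ℝ) ^ (-σ) < (N : ℝ) ^ (σ / 2) * (N : ℝ) ^ (-σ) := by gcongr
      _ = (N : ℝ) ^ (-(σ / 2)) := by
          rw [← Real.rpow_add hNp]; congr 1; ring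
  rw [h3] at h2
  linarith

end Pool.Agent.K7.H67.EN
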